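import Mathlib

/-! A weakly support-preserving endomorphism of `P(ℕ)` that is neither a tilting map nor
`Φ_max`, `Φ_min`: take a valuation of `ℝ` in which `2` is small and send `μ` to the point mass at
the first atom of largest valuation (Gauss's lemma gives additivity). -/

open Finset

namespace Pool.Agent.Results.MP_aec1ed_pr.Exotic

/-- Finitely supported probability measures on `ℕ`. -/
structure FP where
  p : ℕ →₀ ℝ
  nonneg : ∀ s, 0 ≤ p s
  total : ∑ s ∈ p.support, p s = 1

/-- `c = a * b` (convolution). -/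
def IsConv (a b c : FP) : Prop := ∀ s, c.p s = ∑ x ∈ HasAntidiagonal.antidiagonal s, a.p x.1 * b.p x.2

/-- `Ψ[μ₁ * μ₂] = Ψ[μ₁] * Ψ[μ₂]`. -/
def Endo (Ψ : FP → FP) : Prop := ∀ a b c, IsConv a b c → IsConv (Ψ a) (Ψ b) (Ψ c)

/-- `supp Ψ[μ] ⊆ supp μ`. -/
def WeakSP (Ψ : FP → FP) : Prop := ∀ μ s, 0 < (Ψ μ).p s → 0 < μ.p s

/-- The tilting map. -/
noncomputable def tilt (β : ℝ) (μ : FP) (s : ℕ) : ℝ :=
  μ.p s * Real.exp (-β * s) / ∑ t ∈ μ.p.support, μ.p t * Real.exp (-β * t)

/-- Point mass. -/
noncomputable def delta (k : ℕ) : FP where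
  p := Finsupp.single k 1
  nonneg := fun s => by
    rw [Finsupp.single_apply]; split_ifs <;> norm_num
  total := by
    rw [Finsupp.support_single_ne_zero _ one_ne_zero]; simp

noncomputable def phiMax (μ : FP) : FP := delta (sSup {s | 0 < μ.p s})

noncomputable def phiMin (μ : FP) : FP := delta (sInf {s | 0 < μ.p s})

lemma exists_val : ∃ V : ValuationSubring ℝ, V.valuation 2 < 1 := by
  let A : Subring ℝ := (Int.castRingHom ℝ).range
  let two : A := ⟨2, ⟨2, by simp⟩⟩
  have hI : Ideal.span {two} ≠ ⊤ := by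
    intro h
    have h1 : (1 : A) ∈ Ideal.span {two} := by rw [h]; trivial
    obtain ⟨⟨a, ⟨z, hz⟩⟩, ha⟩ := Ideal.mem_span_singleton'.mp h1
    have h2 : a * 2 = 1 := congrArg Subtype.val ha
    rw [← hz] at h2
    have h3 : z * 2 = 1 := by
      have : ((z * 2 : ℤ) : ℝ) = ((1 : ℤ) : ℝ) := by
        push_cast; simpa using h2
      exact_mod_cast this
    omega
  obtain ⟨V, -, hV⟩ := Ideal.image_subset_nonunits_valuationSubring _ hI
  refine ⟨V, ?_⟩
  have : (2 : ℝ) ∈ V.nonunits := hV ⟨two, Ideal.subset_span rfl, rfl⟩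
  exact (V.mem_nonunits_iff).mp this

variable {Γ : Type*} [LinearOrderedCommGroupWithZero Γ]

lemma ex_max (v : Valuation ℝ Γ) (μ : FP) : ∃ k, ∀ j, v (μ.p j) ≤ v (μ.p k) := by
  obtain ⟨k, -, hk⟩ := Finset.exists_max_image (insert 0 μ.p.support) (fun j => v (μ.p j))
    ⟨0, mem_insert_self _ _⟩
  refine ⟨k, fun j => ?_⟩
  by_cases h : μ.p j = 0
  · rw [h, map_zero]; exact zero_le
  · exact hk j (mem_insert_of_mem (Finsupp.mem_support_iff.mpr h))

open Classical in
noncomputable def lead (v : Valuation ℝ Γ) (μ : FP) : ℕ := Nat.find (ex_max v μ)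

lemma lead_le (v : Valuation ℝ Γ) (μ : FP) (j : ℕ) : v (μ.p j) ≤ v (μ.p (lead v μ)) := by
  classical
  exact Nat.find_spec (ex_max v μ) j

lemma lead_lt (v : Valuation ℝ Γ) (μ : FP) (j : ℕ) (h : j < lead v μ) :
    v (μ.p j) < v (μ.p (lead v μ)) := by
  classical
  have := Nat.find_min (ex_max v μ) h
  push Not at this
  obtain ⟨i, hi⟩ := this
  exact hi.trans_le (lead_le v μ i)

lemma lead_ne (v : Valuation ℝ Γ) (μ : FP) : μ.p (lead v μ) ≠ 0 := by
  intro h
  have h0 : ∀ j, μ.p j = 0 := fun j => by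
    have := lead_le v μ j
    rw [h, map_zero] at this
    exact (v.zero_iff).mp (le_antisymm this zero_le)
  have := μ.total
  simp [h0] at this

lemma lead_eq (v : Valuation ℝ Γ) (μ : FP) (k : ℕ) (h1 : ∀ j, v (μ.p j) ≤ v (μ.p k))
    (h2 : ∀ j < k, v (μ.p j) < v (μ.p k)) : lead v μ = k := by
  classical
  rcases lt_trichotomy (lead v μ) k with h | h | h
  · exact absurd (h2 _ h) (not_lt.mpr (lead_le v μ k))
  · exact h
  · exact absurd (lead_lt v μ k h) (not_lt.mpr (h1 _))

lemma lead_conv (v : Valuation ℝ Γ) (a b c : FP) (h : IsConv a b c) :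
    lead v c = lead v a + lead v b := by
  set A := v (a.p (lead v a)) with hA
  set B := v (b.p (lead v b)) with hB
  have hA0 : 0 < A := zero_lt_iff.mpr ((v.ne_zero_iff).mpr (lead_ne v a))
  have hB0 : 0 < B := zero_lt_iff.mpr ((v.ne_zero_iff).mpr (lead_ne v b))
  have hle : ∀ i j, v (a.p i * b.p j) ≤ A * B := fun i j => by
    rw [map_mul]; exact mul_le_mul' (lead_le v a i) (lead_le v b j)
  have hlt : ∀ i j, i < lead v a ∨ j < lead v b → v (a.p i * b.p j) < A * B := by
    intro i j hij
    rw [map_mul]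
    rcases hij with hi | hj
    · calc _ ≤ v (a.p i) * B := mul_le_mul' le_rfl (lead_le v b j)
        _ < A * B := mul_lt_mul_of_pos_right (lead_lt v a i hi) hB0
    · calc _ ≤ A * v (b.p j) := mul_le_mul' (lead_le v a i) le_rfl
        _ < A * B := mul_lt_mul_of_pos_left (lead_lt v b j hj) hA0
  have hAB : A * B ≠ 0 := (mul_pos hA0 hB0).ne'
  have hmain : v (c.p (lead v a + lead v b)) = A * B := by
    rw [h, ← Finset.add_sum_erase _ _ (a := (lead v a, lead v b)) (by simp)]
    have e : v (a.p (lead v a) * b.p (lead v b)) = A * B := by rw [map_mul]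
    rw [Valuation.map_add_eq_of_lt_left, e]
    rw [e]
    refine v.map_sum_lt hAB fun x hx => hlt _ _ ?_
    rw [mem_erase, HasAntidiagonal.mem_antidiagonal] at hx
    by_contra hc
    push Not at hc
    apply hx.1
    ext <;> simp only <;> omega
  apply lead_eq
  · intro j
    rw [hmain, h]
    exact v.map_sum_le fun x _ => hle _ _
  · intro j hj
    rw [hmain, h]
    refine v.map_sum_lt hAB fun x hx => hlt _ _ ?_
    rw [HasAntidiagonal.mem_antidiagonal] at hx
    omega

lemma delta_conv (i j : ℕ) : IsConv (delta i) (delta j) (delta (i + j)) := by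
  intro s
  simp only [delta, Finsupp.single_apply]
  rw [Finset.sum_eq_ite (i, j)]
  · simp [HasAntidiagonal.mem_antidiagonal]
  · intro x _ hx
    by_cases h1 : i = x.1
    · by_cases h2 : j = x.2
      · exact absurd (Prod.ext h1.symm h2.symm) hx
      · simp [h2]
    · simp [h1]

/-- The two-point law `x δ₀ + y δ₁`. -/
noncomputable def two (x y : ℝ) (hx : 0 < x) (hy : 0 < y) (h : x + y = 1) : FP where
  p := Finsupp.single 0 x + Finsupp.single 1 y
  nonneg := fun s => by
    simp only [Finsupp.add_apply, Finsupp.single_apply]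
    split_ifs <;> linarith
  total := by
    have hs : (Finsupp.single 0 x + Finsupp.single 1 y : ℕ →₀ ℝ).support = {0, 1} := by
      ext s
      simp only [Finsupp.mem_support_iff, Finsupp.add_apply, Finsupp.single_apply, mem_insert,
        mem_singleton]
      rcases s with _ | _ | s <;> simp [hx.ne', hy.ne']
    rw [hs]; simp [h]

lemma two_p (x y : ℝ) (hx : 0 < x) (hy : 0 < y) (h : x + y = 1) (s : ℕ) :
    (two x y hx hy h).p s = if s = 0 then x else if s = 1 then y else 0 := by
  simp only [two, Finsupp.add_apply, Finsupp.single_apply]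
  rcases s with _ | _ | s <;> simp

lemma two_supp (x y : ℝ) (hx : 0 < x) (hy : 0 < y) (h : x + y = 1) :
    {s | 0 < (two x y hx hy h).p s} = {0, 1} := by
  ext s
  simp only [two_p, Set.mem_ofPred_eq, Set.mem_insert_iff, Set.mem_singleton_iff]
  rcases s with _ | _ | s <;> simp [hx, hy]

lemma delta_inj {i j : ℕ} (h : delta i = delta j) : i = j := by
  have := congrArg (fun μ : FP => μ.p i) h
  simp only [delta, Finsupp.single_apply] at this
  by_contra hc
  simp [Ne.symm hc] at this

theorem result : ∃ Ψ : FP → FP, Endo Ψ ∧ WeakSP Ψ ∧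
    (∀ β : ℝ, ¬ ∀ μ s, (Ψ μ).p s = tilt β μ s) ∧ Ψ ≠ phiMax ∧ Ψ ≠ phiMin := by
  obtain ⟨V, hV⟩ := exists_val
  set v := V.valuation with hv
  have h3 : 0 < v (1 / 3) := zero_lt_iff.mpr ((v.ne_zero_iff).mpr (by norm_num))
  have h23 : v (2 / 3) < v (1 / 3) := by
    have : (2 / 3 : ℝ) = 2 * (1 / 3) := by norm_num
    rw [this, map_mul]
    calc _ < 1 * v (1 / 3) := mul_lt_mul_of_pos_right hV h3
      _ = _ := one_mul _
  let μ0 := two (1 / 3) (2 / 3) (by norm_num) (by norm_num) (by norm_num)
  let μ1 := two (2 / 3) (1 / 3) (by norm_num) (by norm_num) (by norm_num)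
  have l0 : lead v μ0 = 0 := by
    apply lead_eq
    · intro j
      simp only [μ0, two_p]
      split_ifs <;> simp_all [le_of_lt]
    · intro j hj; omega
  have l1 : lead v μ1 = 1 := by
    apply lead_eq
    · intro j
      simp only [μ1, two_p]
      split_ifs <;> simp_all [le_of_lt]
    · intro j hj
      have : j = 0 := by omega
      subst this
      simpa [μ1, two_p] using h23
  refine ⟨fun μ => delta (lead v μ), ?_, ?_, ?_, ?_, ?_⟩
  · intro a b c h
    simp only [lead_conv v a b c h]
    exact delta_conv _ _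
  · intro μ s hs
    simp only [delta, Finsupp.single_apply] at hs
    split_ifs at hs with h
    · rw [← h]; exact lt_of_le_of_ne (μ.nonneg _) (lead_ne v μ).symm
    · exact absurd hs (lt_irrefl _)
  · intro β h
    have h1 := h μ0 1
    simp only [l0, delta, tilt] at h1
    have hpos : 0 < ∑ t ∈ μ0.p.support, μ0.p t * Real.exp (-β * t) := by
      apply Finset.sum_pos
      · intro t ht
        exact mul_pos (lt_of_le_of_ne (μ0.nonneg _) (Finsupp.mem_support_iff.mp ht).symm)
          (Real.exp_pos _)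
      · exact ⟨_, Finsupp.mem_support_iff.mpr (lead_ne v μ0)⟩
    have hp : 0 < μ0.p 1 := by simp [μ0, two_p]
    have : 0 < μ0.p 1 * Real.exp (-β * (1 : ℕ)) / ∑ t ∈ μ0.p.support, μ0.p t * Real.exp (-β * t) :=
      div_pos (mul_pos hp (Real.exp_pos _)) hpos
    rw [← h1] at this
    simp at this
  · intro h
    have h1 := delta_inj (congrFun h μ0)
    rw [l0, two_supp] at h1
    simp at h1
  · intro h
    have h1 := delta_inj (congrFun h μ1)
    rw [l1, two_supp] at h1
    simp at h1

end Pool.Agent.Results.MP_aec1ed_pr.Exotic
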